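import Pool.Agent.H8.AV3.Stmts7
import Pool.Agent.H28.AV3B.LVB
import Pool.Agent.H93.AV3C.AZ3

/-!
# AV3C, module SQF: the discriminant is generically squarefree in the coefficient of `MXZ`
-/

set_option autoImplicit false

namespace Pool.Agent.H34.AV3C

open Polynomial Matrix Pool.AVR Pool.AV3 Pool.Agent.H28.AV3B Pool.Agent.H93.AV3C

theorem DW_map {R S : Type} [CommRing R] [CommRing S] (φ : R →+* S) (τ : R) (c : Fin 10 → R) :
    (DW τ c).map φ = DW (φ τ) (fun i => φ (c i)) := by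
  have h1 := dsc_map (mapRingHom φ)
    (Jc (C τ) (Function.update (fun i => C (c i)) 4 X))
  have h2 := Jc_map (mapRingHom φ) (C τ) (Function.update (fun i => C (c i)) 4 X)
  rw [← h2] at h1
  have h3 : (fun i => (mapRingHom φ) (Function.update (fun i => C (c i)) 4 X i)) =
      Function.update (fun i => C (φ (c i))) 4 (X : S[X]) := by
    funext i
    by_cases hi : i = 4
    · subst hi
      simp
    · simp [Function.update_of_ne hi]
  rw [h3] at h1
  have h4 : (mapRingHom φ) (C τ) = C (φ τ) := by simp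
  rw [h4] at h1
  exact h1.symm

/-- The resultant with formal degrees. -/
noncomputable def Rs {R : Type} [CommRing R] (f : R[X]) : R :=
  resultant f (derivative f) 9 8

theorem Rs_map {R S : Type} [CommRing R] [CommRing S] (φ : R →+* S) (f : R[X]) :
    Rs (f.map φ) = φ (Rs f) := by
  unfold Rs
  rw [derivative_map, resultant_map_map]

theorem Rs_ne {K : Type} [Field K] (f : K[X]) (h9 : f.natDegree = 9)
    (hc : IsCoprime f (derivative f)) : Rs f ≠ 0 := by
  have hd : (derivative f).natDegree ≤ 8 := by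
    have := natDegree_derivative_le f
    omega
  obtain ⟨k, hk⟩ := Nat.exists_eq_add_of_le hd
  unfold Rs
  rw [hk, resultant_add_right_deg _ _ _ _ k le_rfl]
  have h0 : f ≠ 0 := by
    rintro rfl
    simp at h9
  have h1 : f.coeff 9 ≠ 0 := by
    rw [← h9]
    exact leadingCoeff_ne_zero.2 h0
  have h2 := resultant_ne_zero f (derivative f) hc
  rw [h9] at h2
  exact mul_ne_zero (pow_ne_zero _ h1) h2

theorem cop_of_Rs {K : Type} [Field K] (f : K[X]) (h9 : f.natDegree ≤ 9)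
    (hr : Rs f ≠ 0) : IsCoprime f (derivative f) := by
  have hd : (derivative f).natDegree ≤ 8 := by
    have := natDegree_derivative_le f
    omega
  obtain ⟨p, q, _, _, e⟩ := exists_mul_add_mul_eq_C_resultant f (derivative f) h9 hd
    (Or.inl (by norm_num))
  refine ⟨C (Rs f)⁻¹ * p, C (Rs f)⁻¹ * q, ?_⟩
  have h1 : C (Rs f)⁻¹ * p * f + C (Rs f)⁻¹ * q * derivative f =
      C (Rs f)⁻¹ * (f * p + derivative f * q) := by ring
  rw [h1, e, ← C_mul]
  unfold Rs at hr ⊢
  rw [inv_mul_cancel₀ hr, C_1]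

/-- The universal resultant. -/
noncomputable def Ph (F : Type) [Field F] : MvPolynomial (Fin 10) F :=
  Rs (DW (MvPolynomial.C (2 : F)⁻¹) (fun i => MvPolynomial.X i))

theorem Ph_eval {F : Type} [Field F] {S : Type} [CommRing S] (φ : F →+* S) (c : Fin 10 → S) :
    MvPolynomial.eval₂Hom φ c (Ph F) = Rs (DW (φ (2 : F)⁻¹) c) := by
  have h1 := Rs_map (MvPolynomial.eval₂Hom φ c)
    (DW (MvPolynomial.C (2 : F)⁻¹) (fun i => MvPolynomial.X i))
  have h2 := DW_map (MvPolynomial.eval₂Hom φ c) (MvPolynomial.C (2 : F)⁻¹)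
    (fun i => MvPolynomial.X i)
  rw [h2, MvPolynomial.eval₂Hom_C] at h1
  simp only [MvPolynomial.eval₂Hom_X'] at h1
  exact h1.symm

theorem Ph_ne (hSQS : SQSStmt) (F : Type) [Field F] (h2 : (2 : F) ≠ 0) : Ph F ≠ 0 := by
  obtain ⟨K, _, i, c, h9, hc⟩ := hSQS F h2
  intro h0
  have h1 := Ph_eval i c
  rw [h0, map_zero, map_inv₀, map_ofNat] at h1
  exact Rs_ne _ h9 hc h1.symm

theorem bad_sub (hDWP : DWPStmt) (F : Type) [Field F] (h2 : (2 : F) ≠ 0) (c : Fin 10 → F[X])
    (hc : ¬ IsCoprime ((DW (hf F) c).map (algebraMap F[X] (RatFunc F)))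
        (derivative ((DW (hf F) c).map (algebraMap F[X] (RatFunc F))))) :
    MvPolynomial.eval c (MvPolynomial.map C (Ph F)) = 0 := by
  have h3 : (2 : F[X]) * hf F = 1 := by
    unfold hf
    rw [← C_ofNat, ← C_mul, mul_inv_cancel₀ h2, C_1]
  have h4 : MvPolynomial.eval c (MvPolynomial.map C (Ph F)) = Rs (DW (hf F) c) := by
    rw [MvPolynomial.eval_map]
    exact Ph_eval C c
  rw [h4]
  by_contra h5
  apply hc
  apply cop_of_Rs
  · exact natDegree_map_le.trans (hDWP.1 F[X] (hf F) h3 c).1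
  · rw [Rs_map]
    intro h6
    apply h5
    exact (map_eq_zero_iff _ (RatFunc.algebraMap_injective F)).1 h6

theorem card_degLT (F : Type) [Field F] [Finite F] (k : ℕ) :
    (degreeLT F k : Set F[X]).Finite ∧ (degreeLT F k : Set F[X]).ncard = Nat.card F ^ k := by
  have e := (degreeLTEquiv F k).toEquiv
  have h1 : Nat.card (degreeLT F k) = Nat.card F ^ k := by
    rw [Nat.card_congr e, Nat.card_fun, Nat.card_fin]
  have h2 : Finite (degreeLT F k) := Finite.of_equiv _ e.symm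
  exact ⟨Set.toFinite _, h1⟩

theorem mem_degLT {F : Type} [Field F] {n α β : ℕ} {c : Fin 10 → F[X]}
    (hc : c ∈ Vd n (dv α β)) (i : Fin 10) : c i ∈ degreeLT F (kk n α β i) := by
  rw [mem_degreeLT, degree_lt_iff_coeff_zero]
  intro m hm
  exact coeff_zero hc i m hm

theorem num (q : ℕ) (hq2 : 2 ≤ q) (d k : Fin 10 → ℕ) (D m₀ : ℕ) (hD : D = ∑ i, d i) (ε : ℝ)
    (hε : 0 < ε) (hm₀ : (D : ℝ) / ε ≤ m₀) (hk : ∀ i, m₀ ≤ k i) :
    ∑ i, ((d i : ℝ) / ((q : ℝ) ^ k i)) ≤ ε := by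
  have hm : ∀ i, (m₀ : ℝ) + 1 ≤ (q : ℝ) ^ k i := by
    intro i
    have h6 : m₀ + 1 ≤ q ^ k i := by
      calc m₀ + 1 ≤ 2 ^ m₀ := Nat.lt_two_pow_self
        _ ≤ 2 ^ k i := Nat.pow_le_pow_right (by norm_num) (hk i)
        _ ≤ q ^ k i := Nat.pow_le_pow_left hq2 _
    exact_mod_cast h6
  have hm1 : (0 : ℝ) < (m₀ : ℝ) + 1 := by positivity
  calc ∑ i, ((d i : ℝ) / ((q : ℝ) ^ k i)) ≤ ∑ i, ((d i : ℝ) / ((m₀ : ℝ) + 1)) := by
        apply Finset.sum_le_sum
        intro i _
        exact div_le_div_of_nonneg_left (by positivity) hm1 (hm i)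
    _ = (D : ℝ) / ((m₀ : ℝ) + 1) := by
        rw [← Finset.sum_div, hD]
        push_cast
        rfl
    _ ≤ ε := by
        rw [div_le_iff₀ hm1]
        rw [div_le_iff₀ hε] at hm₀
        nlinarith

open Classical in
theorem sz {A : Type} [CommRing A] [IsDomain A] (p : MvPolynomial (Fin 10) A) (hp : p ≠ 0)
    (S : Fin 10 → Finset A) (q : ℕ) (hq2 : 2 ≤ q) (k : Fin 10 → ℕ)
    (hS : ∀ i, (S i).card = q ^ k i) :
    ({x : Fin 10 → A | (∀ i, x i ∈ S i) ∧ MvPolynomial.eval x p = 0}.ncard : ℝ) ≤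
      (∑ i, ((p.degreeOf i : ℝ) / ((q : ℝ) ^ k i))) * (q : ℝ) ^ (∑ i, k i) := by
  have hsz := MvPolynomial.schwartz_zippel_sum_degreeOf hp S
  have hset : {x : Fin 10 → A | (∀ i, x i ∈ S i) ∧ MvPolynomial.eval x p = 0} =
      (((Fintype.piFinset S).filter (fun x => MvPolynomial.eval x p = 0) :
        Finset (Fin 10 → A)) : Set (Fin 10 → A)) := by
    ext x
    simp
  rw [hset, Set.ncard_coe_finset]
  have hq0 : (0 : ℝ) < q := by
    have : 0 < q := by omega
    exact_mod_cast this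
  have h3 : ∀ i, ((S i).card : ℝ) = (q : ℝ) ^ k i := by
    intro i
    rw [hS]
    push_cast
    rfl
  have h4 := (NNRat.cast_le (K := ℝ)).2 hsz
  push_cast at h4
  simp only [h3] at h4
  rw [Finset.prod_pow_eq_pow_sum, div_le_iff₀ (pow_pos hq0 _)] at h4
  exact h4

theorem sqf_thm (hSQS : SQSStmt) (hDWP : DWPStmt) : SQFStmt := by
  classical
  intro F _ _ h2 α β ε hε
  have hp0 : (MvPolynomial.map C (Ph F) : MvPolynomial (Fin 10) F[X]) ≠ 0 := by
    intro h
    apply Ph_ne hSQS F h2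
    apply MvPolynomial.map_injective C C_injective
    rw [h, map_zero]
  generalize hp : (MvPolynomial.map C (Ph F) : MvPolynomial (Fin 10) F[X]) = p at hp0
  obtain ⟨m₀, hm₀⟩ := exists_nat_ge (((∑ i, p.degreeOf i : ℕ) : ℝ) / ε)
  refine ⟨2 * α + β + m₀, fun n hn => ?_⟩
  have hn1 : 2 * α + β ≤ n + 1 := by omega
  let S : Fin 10 → Finset F[X] := fun i => (card_degLT F (kk n α β i)).1.toFinset
  have hS : ∀ i, (S i).card = Nat.card F ^ kk n α β i := by
    intro i
    rw [← (card_degLT F (kk n α β i)).2, Set.ncard_eq_toFinset_card _ (card_degLT F _).1]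
  have hq2 : 2 ≤ Nat.card F := by
    have := Finite.one_lt_card (α := F)
    omega
  have hsz := sz p hp0 S (Nat.card F) hq2 (kk n α β) hS
  have hsub : {c : Fin 10 → F[X] | c ∈ Vd n (dv α β) ∧
      ¬ IsCoprime ((DW (hf F) c).map (algebraMap F[X] (RatFunc F)))
        (derivative ((DW (hf F) c).map (algebraMap F[X] (RatFunc F))))} ⊆
      {x : Fin 10 → F[X] | (∀ i, x i ∈ S i) ∧ MvPolynomial.eval x p = 0} := by
    rintro c ⟨hc1, hc2⟩
    refine ⟨fun i => ?_, ?_⟩
    · rw [Set.Finite.mem_toFinset]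
      exact mem_degLT hc1 i
    · rw [← hp]
      exact bad_sub hDWP F h2 c hc2
  have hfin : {x : Fin 10 → F[X] | (∀ i, x i ∈ S i) ∧ MvPolynomial.eval x p = 0}.Finite := by
    refine (Set.Finite.pi (fun i => (S i).finite_toSet)).subset ?_
    rintro x ⟨hx, _⟩ i _
    exact hx i
  have hle := Set.ncard_le_ncard hsub hfin
  have hk : ∀ i, m₀ ≤ kk n α β i := by
    intro i
    obtain ⟨h0, h1, h2, h3, h4, h5, h6, h7, h8, h9⟩ := kk_val n α β hn1
    fin_cases i <;> simp only [Fin.zero_eta, Fin.mk_one, Fin.reduceFinMk] <;> omega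
  have hsum := num (Nat.card F) hq2 (fun i => p.degreeOf i) (kk n α β) _ m₀ rfl ε hε hm₀ hk
  rw [sum_kk hn1] at hsz
  have hle' := (Nat.cast_le (α := ℝ)).2 hle
  refine hle'.trans (hsz.trans ?_)
  exact mul_le_mul_of_nonneg_right hsum (pow_nonneg (Nat.cast_nonneg _) _)

end Pool.Agent.H34.AV3C
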