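import Pool.Agent.H8.AV3.Stmts7
import Pool.Agent.H28.AV3B.LVB

/-!
# AV3C, module LVC: the local averages of the weights, lower bound
-/

set_option autoImplicit false

namespace Pool.Agent.H34.AV3C

open Polynomial Matrix Pool.AVR Pool.AV3 Pool.Agent.H28.AV3B

section Core

variable {R k : Type} [CommRing R] [Field k]

open Classical in
theorem wl_nonneg [Finite k] (φ : R →+* k) (τ : R) (c : Fin 10 → R) : 0 ≤ wl φ τ c := by
  have hk2 : 1 ≤ Nat.card k := Nat.card_pos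
  have hk : (1 : ℝ) ≤ Nat.card k := by exact_mod_cast hk2
  have hk1 : (0 : ℝ) ≤ Nat.card k - 1 := by linarith
  unfold wl
  split_ifs <;> positivity

open Classical in
theorem coreL (hMAS : MAS3Stmt) (hNSH : NSHStmt) [Fintype R] [Finite k] (φ : R →+* k) (τ : R)
    (h : Res φ τ) :
    (1 - 1 / (Nat.card k : ℝ) ^ 2) * (1 - 1 / (Nat.card k : ℝ) ^ 3) * (Nat.card R : ℝ) ^ 7 *
      ((Finset.univ.filter (fun f : R × R × R => ¬ dsc f = 0)).card : ℝ) ≤
      ∑ c : Fin 10 → R, wl φ τ c := by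
  have hk2 : 2 ≤ Nat.card k := by
    have := Finite.one_lt_card (α := k)
    omega
  have hk : (2 : ℝ) ≤ Nat.card k := by exact_mod_cast hk2
  have hr0 : 0 < Nat.card R := Nat.card_pos
  have hr : (0 : ℝ) < Nat.card R := by exact_mod_cast hr0
  have hle : ∑ c ∈ Finset.univ.filter (fun c : Fin 10 → R => ¬ dsc (Jc τ c) = 0), wl φ τ c ≤
      ∑ c : Fin 10 → R, wl φ τ c := by
    apply Finset.sum_le_sum_of_subset_of_nonneg (Finset.filter_subset _ _)
    intro c _ _
    exact wl_nonneg φ τ c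
  refine le_trans (le_of_eq ?_) hle
  set κ : ℝ := (Nat.card k : ℝ) with hκ
  have hκ0 : 0 < κ := by linarith
  have hκ1 : 0 < κ - 1 := by linarith
  set r : ℝ := (Nat.card R : ℝ) with hrdef
  set ρ : ℝ := (1 - 1 / κ ^ 2) * (1 - 1 / κ ^ 3) with hρ
  have hρe : ρ = (κ ^ 2 - 1) * (κ ^ 3 - 1) / κ ^ 5 := by
    rw [hρ]
    field_simp
  set T : Finset (Fin 10 → R) :=
    Finset.univ.filter (fun c : Fin 10 → R => ¬ dsc (Jc τ c) = 0) with hT
  set V : Finset (R × R × R) :=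
    Finset.univ.filter (fun f : R × R × R => ¬ dsc f = 0) with hV
  set I : Finset ℕ := Finset.univ.image (fun f : R × R × R => nET f) with hI
  have hI1 : ∀ f : R × R × R, nET f ∈ I := fun f =>
    Finset.mem_image_of_mem _ (Finset.mem_univ f)
  have h1 : ∑ c ∈ T, wl φ τ c =
      ∑ m ∈ I, ∑ c ∈ T with nET (Jc τ c) = m, wl φ τ c :=
    (Finset.sum_fiberwise_of_maps_to (fun c _ => hI1 (Jc τ c)) _).symm
  have h2 : V.card = ∑ m ∈ I, (V.filter (fun f => nET f = m)).card :=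
    Finset.card_eq_sum_card_fiberwise (fun f _ => hI1 f)
  have h3 : ∀ m ∈ I, ∑ c ∈ T with nET (Jc τ c) = m, wl φ τ c =
      ρ * r ^ 7 * (V.filter (fun f => nET f = m)).card := by
    intro m _
    have hA : ShInv {f : R × R × R | (¬ dsc f = 0) ∧ nET f = m} := by
      rintro f ⟨hf2, hf3⟩ η
      refine ⟨?_, ?_⟩
      · rw [dsc_sh]
        exact hf2
      · rw [hNSH]
        exact hf3
    have h4 := mas hMAS φ τ h _ hA
    simp only [Set.mem_ofPred_eq] at h4
    have h5 : ∑ f ∈ Finset.univ.filter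
        (fun f : R × R × R => (¬ dsc f = 0) ∧ nET f = m),
          ((Nat.card k : ℝ) * nET f + Nat.card R) =
        (V.filter (fun f => nET f = m)).card * (κ * m + r) := by
      rw [hV, Finset.filter_filter, ← nsmul_eq_mul, ← Finset.sum_const]
      refine Finset.sum_congr rfl (fun f hf => ?_)
      rw [Finset.mem_filter] at hf
      rw [hf.2.2]
    rw [h5] at h4
    have hden : 0 < κ * m + r := by positivity
    have h6 : ∑ c ∈ T with nET (Jc τ c) = m, wl φ τ c =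
        (∑ c ∈ Finset.univ.filter
          (fun c : Fin 10 → R => (¬ dsc (Jc τ c) = 0) ∧ nET (Jc τ c) = m),
            (gdk (fun i => φ (c i)) : ℝ)) / ((κ - 1) * (κ * m / r + 1)) := by
      rw [hT, Finset.filter_filter, Finset.sum_div]
      refine Finset.sum_congr rfl (fun c hc => ?_)
      rw [Finset.mem_filter] at hc
      unfold wl
      rw [if_neg hc.2.1, hc.2.2]
    rw [h6, div_eq_iff (by positivity)]
    have h7 : (∑ c ∈ Finset.univ.filter
          (fun c : Fin 10 → R => (¬ dsc (Jc τ c) = 0) ∧ nET (Jc τ c) = m),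
            (gdk (fun i => φ (c i)) : ℝ)) = (κ - 1) * (κ ^ 2 - 1) * (κ ^ 3 - 1) * r ^ 6 *
              ((V.filter (fun f => nET f = m)).card * (κ * m + r)) / κ ^ 5 := by
      rw [eq_div_iff (by positivity), mul_comm]
      exact h4
    rw [h7, hρe]
    field_simp
  rw [h1, Finset.sum_congr rfl h3, ← Finset.mul_sum, ← Nat.cast_sum, ← h2]

end Core

theorem lvc_thm (hMAS : MAS3Stmt) (hEXC : EXC3Stmt) (hNSH : NSHStmt) (hLVA : LVAStmt) :
    LVCStmt := by
  classical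
  intro F _ _ h2 P hP hPi ε hε
  have hFact := Fact.mk hPi
  obtain ⟨N₀, hN₀⟩ := hEXC F h2 P hP hPi (ε / 2) (by linarith)
  refine ⟨max N₀ 1, fun N hN' => ?_⟩
  have hN0 : N₀ ≤ N := (le_max_left _ _).trans hN'
  have hN : 1 ≤ N := (le_max_right _ _).trans hN'
  have hex := hN₀ N hN0
  have hcR := (hLVA F h2 P hP hPi).1 N
  have hck : Nat.card (AdjoinRoot P) = Nat.card F ^ P.natDegree := by
    have h3 := (hLVA F h2 P hP hPi).1 1
    rwa [pow_one, one_mul] at h3
  have hq0 : 0 < Nat.card F := Nat.card_pos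
  have hfR : Finite (AdjoinRoot (P ^ N)) := by
    apply Nat.finite_of_card_ne_zero
    rw [hcR]
    exact (pow_pos hq0 _).ne'
  have hfk : Finite (AdjoinRoot P) := by
    apply Nat.finite_of_card_ne_zero
    rw [hck]
    exact (pow_pos hq0 _).ne'
  have := Fintype.ofFinite (AdjoinRoot (P ^ N))
  have hres := res_ph h2 P N hN
  have hq : (0 : ℝ) < Nat.card F := by exact_mod_cast hq0
  have hcR' : (Nat.card (AdjoinRoot (P ^ N)) : ℝ) = (Nat.card F : ℝ) ^ (N * P.natDegree) := by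
    rw [hcR]
    push_cast
    rfl
  have hck' : (Nat.card (AdjoinRoot P) : ℝ) = (Nat.card F : ℝ) ^ P.natDegree := by
    rw [hck]
    push_cast
    rfl
  have hρ : (1 - 1 / (Nat.card (AdjoinRoot P) : ℝ) ^ 2) *
      (1 - 1 / (Nat.card (AdjoinRoot P) : ℝ) ^ 3) = rhoF F P.natDegree := by
    unfold rhoF
    rw [hck', ← pow_mul, ← pow_mul, mul_comm P.natDegree 2, mul_comm P.natDegree 3]
  have h01 : ∀ j : ℕ, 0 ≤ 1 - 1 / (Nat.card F : ℝ) ^ j ∧ 1 - 1 / (Nat.card F : ℝ) ^ j ≤ 1 := by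
    intro j
    have h5 : 1 / (Nat.card F : ℝ) ^ j ≤ 1 := by
      rw [div_le_one (by positivity)]
      exact one_le_pow₀ (by exact_mod_cast hq0)
    have h6 : 0 ≤ 1 / (Nat.card F : ℝ) ^ j := by positivity
    constructor <;> linarith
  have hρ0 : 0 ≤ rhoF F P.natDegree := mul_nonneg (h01 _).1 (h01 _).1
  have hρ1 : rhoF F P.natDegree ≤ 1 := mul_le_one₀ (h01 _).2 (h01 _).1 (h01 _).2
  set r : ℝ := (Nat.card (AdjoinRoot (P ^ N)) : ℝ) with hr
  have hr0 : 0 < r := by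
    rw [hcR']
    positivity
  have hr10 : r ^ 10 = (Nat.card F : ℝ) ^ (10 * (N * P.natDegree)) := by
    rw [hcR', ← pow_mul, mul_comm]
  have hr4 : r ^ 4 = (Nat.card F : ℝ) ^ (4 * (N * P.natDegree)) := by
    rw [hcR', ← pow_mul, mul_comm]
  set Sg : ℕ := ∑ᶠ f ∈ {f : AdjoinRoot (P ^ N) × AdjoinRoot (P ^ N) × AdjoinRoot (P ^ N) |
    dsc f = 0}, (Nat.card (AdjoinRoot P) * nET f + Nat.card (AdjoinRoot (P ^ N))) with hSg
  have hSle : (Sg : ℝ) ≤ ε / 2 * r ^ 4 := by
    rw [hSg, hr4, hck, hcR]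
    exact hex
  have hZ : ((Finset.univ.filter (fun f : AdjoinRoot (P ^ N) × AdjoinRoot (P ^ N) ×
      AdjoinRoot (P ^ N) => dsc f = 0)).card : ℝ) * r ≤ Sg := by
    rw [hSg, fsum_fin (fun f : AdjoinRoot (P ^ N) × AdjoinRoot (P ^ N) ×
      AdjoinRoot (P ^ N) => dsc f = 0)]
    push_cast
    rw [← nsmul_eq_mul, ← Finset.sum_const]
    apply Finset.sum_le_sum
    intro f _
    have h7 : (0 : ℝ) ≤ (Nat.card (AdjoinRoot P) : ℝ) * nET f := by positivity
    linarith
  have hZ3 : ((Finset.univ.filter (fun f : AdjoinRoot (P ^ N) × AdjoinRoot (P ^ N) ×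
      AdjoinRoot (P ^ N) => dsc f = 0)).card : ℝ) ≤ ε / 2 * r ^ 3 := by
    have h8 := hZ.trans hSle
    have h9 : ε / 2 * r ^ 4 = ε / 2 * r ^ 3 * r := by ring
    rw [h9] at h8
    exact le_of_mul_le_mul_right h8 hr0
  constructor
  · have e1 : ∑ᶠ c : Fin 10 → AdjoinRoot (P ^ N), wb P N (fun i => AVS.lft (c i)) =
        ∑ c : Fin 10 → AdjoinRoot (P ^ N),
          wl (k := AdjoinRoot P) (ph P N hN) (AdjoinRoot.mk (P ^ N) (hf F)) c := by
      rw [finsum_eq_sum_of_fintype]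
      exact Finset.sum_congr rfl (fun c _ => wb_eq P N hN c)
    rw [e1]
    have c1 := coreL hMAS hNSH (k := AdjoinRoot P) (ph P N hN) _ hres
    refine le_trans ?_ c1
    rw [hρ]
    have hcard : ((Finset.univ.filter (fun f : AdjoinRoot (P ^ N) × AdjoinRoot (P ^ N) ×
        AdjoinRoot (P ^ N) => dsc f = 0)).card : ℝ) +
        ((Finset.univ.filter (fun f : AdjoinRoot (P ^ N) × AdjoinRoot (P ^ N) ×
        AdjoinRoot (P ^ N) => ¬ dsc f = 0)).card : ℝ) = r ^ 3 := by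
      have h10 := Finset.card_filter_add_card_filter_not (s := (Finset.univ : Finset
        (AdjoinRoot (P ^ N) × AdjoinRoot (P ^ N) × AdjoinRoot (P ^ N))))
        (fun f => dsc f = 0)
      rw [Finset.card_univ, ← Nat.card_eq_fintype_card, Nat.card_prod, Nat.card_prod] at h10
      have h11 := congrArg (Nat.cast : ℕ → ℝ) h10
      push_cast at h11
      rw [h11, hr]
      ring
    have h12 : r ^ 3 - ε / 2 * r ^ 3 ≤
        ((Finset.univ.filter (fun f : AdjoinRoot (P ^ N) × AdjoinRoot (P ^ N) ×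
        AdjoinRoot (P ^ N) => ¬ dsc f = 0)).card : ℝ) := by linarith
    have h13 : rhoF F P.natDegree * r ^ 7 * (r ^ 3 - ε / 2 * r ^ 3) ≤
        rhoF F P.natDegree * r ^ 7 * ((Finset.univ.filter (fun f : AdjoinRoot (P ^ N) ×
          AdjoinRoot (P ^ N) × AdjoinRoot (P ^ N) => ¬ dsc f = 0)).card : ℝ) :=
      mul_le_mul_of_nonneg_left h12 (by positivity)
    refine le_trans ?_ h13
    rw [← hr10]
    have h14 : rhoF F P.natDegree * r ^ 7 * (r ^ 3 - ε / 2 * r ^ 3) =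
        (rhoF F P.natDegree - rhoF F P.natDegree * (ε / 2)) * r ^ 10 := by ring
    rw [h14]
    apply mul_le_mul_of_nonneg_right _ (by positivity)
    have h15 : rhoF F P.natDegree * (ε / 2) ≤ 1 * (ε / 2) :=
      mul_le_mul_of_nonneg_right hρ1 (by linarith)
    linarith
  · have hB : ShInv {f : AdjoinRoot (P ^ N) × AdjoinRoot (P ^ N) × AdjoinRoot (P ^ N) |
        dsc f = 0} := by
      intro f hf η
      show dsc (sh η f) = 0
      rw [dsc_sh]
      exact hf
    have c2 := core hMAS hNSH (k := AdjoinRoot P) (ph P N hN) _ hres _ hB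
    have e1 : ∑ᶠ c ∈ {c : Fin 10 → AdjoinRoot (P ^ N) |
          P ^ N ∣ dsc (Jc (hf F) fun i => AVS.lft (c i))}, wb P N (fun i => AVS.lft (c i)) =
        ∑ᶠ c ∈ {c : Fin 10 → AdjoinRoot (P ^ N) |
          Jc (AdjoinRoot.mk (P ^ N) (hf F)) c ∈
            {f : AdjoinRoot (P ^ N) × AdjoinRoot (P ^ N) × AdjoinRoot (P ^ N) | dsc f = 0}},
          wl (k := AdjoinRoot P) (ph P N hN) (AdjoinRoot.mk (P ^ N) (hf F)) c := by
      have h4 : {c : Fin 10 → AdjoinRoot (P ^ N) |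
          Jc (AdjoinRoot.mk (P ^ N) (hf F)) c ∈
            {f : AdjoinRoot (P ^ N) × AdjoinRoot (P ^ N) × AdjoinRoot (P ^ N) | dsc f = 0}} =
          {c : Fin 10 → AdjoinRoot (P ^ N) |
          P ^ N ∣ dsc (Jc (hf F) fun i => AVS.lft (c i))} := by
        ext c
        show dsc (Jc (AdjoinRoot.mk (P ^ N) (hf F)) c) = 0 ↔
          P ^ N ∣ dsc (Jc (hf F) fun i => AVS.lft (c i))
        rw [Jc_lft, ← AdjoinRoot.mk_eq_zero, ← dsc_map (AdjoinRoot.mk (P ^ N))]
        rfl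
      rw [h4]
      exact finsum_mem_congr rfl (fun c _ => wb_eq P N hN c)
    rw [e1]
    refine c2.trans ?_
    rw [hρ, ncard_fin (fun f : AdjoinRoot (P ^ N) × AdjoinRoot (P ^ N) × AdjoinRoot (P ^ N) =>
      dsc f = 0), ← hr10]
    have h16 : rhoF F P.natDegree * r ^ 7 * ((Finset.univ.filter (fun f : AdjoinRoot (P ^ N) ×
          AdjoinRoot (P ^ N) × AdjoinRoot (P ^ N) => dsc f = 0)).card : ℝ) ≤
        1 * r ^ 7 * (ε / 2 * r ^ 3) := by
      apply mul_le_mul (mul_le_mul_of_nonneg_right hρ1 (by positivity)) hZ3 (by positivity)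
        (by positivity)
    have h17 : r ^ 6 * (Sg : ℝ) ≤ r ^ 6 * (ε / 2 * r ^ 4) :=
      mul_le_mul_of_nonneg_left hSle (by positivity)
    calc _ ≤ 1 * r ^ 7 * (ε / 2 * r ^ 3) + r ^ 6 * (ε / 2 * r ^ 4) := add_le_add h16 h17
      _ = ε * r ^ 10 := by ring

end Pool.Agent.H34.AV3C
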